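import Pool.Agent.L7h67.AE.Final2

set_option autoImplicit false

/-!
# The parity of the number of `t`-multipartitions for almost all `t` (MP_a3366f_nt)

Let `p_t(n)` be the number of `t`-multipartitions of `n`, and fix a class `ρ` modulo `2 ^ b` for `n`
(`b = 0`: all `n`). For every `ε > 0` there are `δ > 0` and `x₀` such that for every `T` all but `ε T` of the odd
`t < T` satisfy

* at ALL scales `x₀ ≤ x ≤ T`: `p_t(n)` is odd for at least `x ^ 0.7` and even for at least `x / (log x) ^ 2` of the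
  `n < x` in the class;
* at the scale `T`: `p_t(n)` is even for at least `δ T` of the `n < T` in the class (if `T ≥ x₀`).

For a fixed `t` and `x → ∞` the exponent of the known lower bounds for the number of odd values is `1 / 2`
(starting file `OddValues`, `√x (log x) ^ (1 - ε)`), and even values are known for `√x log x` integers
(`EvenValues`).

Method. Modulo 2 the series `P = ∑ p(n) q ^ n` satisfies `P ^ (2 ^ k) = P(q ^ (2 ^ k))`, so that the parities of
`p_t(n)`, `n < 2 ^ k`, depend on `t` modulo `2 ^ k`, and the sections of `P ^ t` modulo `2 ^ k` evolve, when the next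
binary digit `τ` of `t` and the next digit `ν` of `n` are read, by `a ↦ (part ν of P ^ τ a)`. To each window
`(a_0, …, a_5)` of a section a weight is attached (`ph`, zero only for the zero window) such that, for ALL sections
`a`, the sums `x` and `y` of the weights of the two windows which follow with `τ = 0`, and with `τ = 1`, satisfy
`x y ≥ 2.64 (weight of a) ^ 2` and `x, y ≥ weight of a`; this is a finite check (`cert`, 4096 cases). By Cauchy's
inequality the same holds for the sum of the weights over all places `n < 2 ^ k` in the class, and the number of `t` for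
which this sum is small is bounded by an exponential moment. For even values: at a place with an odd value exactly
one of the two values at the next scale (`τ = 0, 1`) is even.
-/

namespace Pool.Agent.Results.MP_a3366f_nt.AlmostAllExponents

open Pool.Agent.L7h67.AE

/-- the number of `t`-multipartitions of `n`: the coefficient of `q ^ n` in `∏ 1 / (1 - q ^ i) ^ t` -/
def multipartitions (t n : ℕ) : ℕ :=
  ∑ x ∈ Finset.Nat.antidiagonalTuple t n, ∏ i, Fintype.card (Nat.Partition (x i))

/-- the number of the `n < x`, `n ≡ ρ (mod 2 ^ b)`, for which `p_t(n)` is odd -/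
noncomputable def oddCount (b ρ t x : ℕ) : ℕ :=
  ((Finset.range x).filter fun n => n % 2 ^ b = ρ % 2 ^ b ∧ Odd (multipartitions t n)).card

/-- the number of the `n < x`, `n ≡ ρ (mod 2 ^ b)`, for which `p_t(n)` is even -/
noncomputable def evenCount (b ρ t x : ℕ) : ℕ :=
  ((Finset.range x).filter fun n => n % 2 ^ b = ρ % 2 ^ b ∧ Even (multipartitions t n)).card

private theorem c_eq (t n : ℕ) : c t n = (multipartitions t n : ZMod 2) :=
  Pool.Agent.H413R3.Part.coeff_pow_eq t n

private theorem odd_eq (b ρ t x : ℕ) : oddCount b ρ t x = Nodd b ρ t x := by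
  unfold oddCount Nodd
  congr 1
  refine Finset.filter_congr fun n _ => ?_
  rw [c_eq, ZMod.natCast_eq_one_iff_odd]

private theorem even_eq (b ρ t x : ℕ) : evenCount b ρ t x = Nev b ρ t x := by
  unfold evenCount Nev
  congr 1
  refine Finset.filter_congr fun n _ => ?_
  rw [c_eq, ZMod.natCast_eq_zero_iff_even]

theorem result (b ρ : ℕ) (ε : ℝ) (hε : 0 < ε) :
    ∃ δ : ℝ, 0 < δ ∧ ∃ x0 : ℕ, ∀ T : ℕ,
      ({t : ℕ | t < T ∧ Odd t ∧ ¬ ((∀ x : ℕ, x0 ≤ x → x ≤ T →
          (x : ℝ) ^ (0.7 : ℝ) ≤ oddCount b ρ t x ∧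
          (x : ℝ) / (Real.log x) ^ 2 ≤ evenCount b ρ t x) ∧
        (x0 ≤ T → δ * T ≤ evenCount b ρ t T))}.ncard : ℝ) ≤ ε * T := by
  classical
  obtain ⟨x1, h1⟩ := main b ρ (ε / 2) (half_pos hε)
  obtain ⟨δ, hδ, x2, h2⟩ := main3 b ρ (ε / 2) (half_pos hε)
  refine ⟨δ, hδ, max x1 x2, fun T => ?_⟩
  obtain ⟨A, hA⟩ : ∃ A : Finset ℕ, A = ((Finset.range T).filter fun t => Odd t ∧
      ∃ x : ℕ, x1 ≤ x ∧ x ≤ T ∧ ¬ ((x : ℝ) ^ (0.7 : ℝ) ≤ Nodd b ρ t x ∧
        (x : ℝ) / (Real.log x) ^ 2 ≤ Nev b ρ t x)) := ⟨_, rfl⟩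
  obtain ⟨B, hB⟩ : ∃ B : Finset ℕ, B = if x2 ≤ T then
      ((Finset.range T).filter fun t => (Nev b ρ t T : ℝ) < δ * T) else ∅ := ⟨_, rfl⟩
  have hAc : (A.card : ℝ) ≤ ε / 2 * T := by rw [hA]; exact h1 T
  have hBc : (B.card : ℝ) ≤ ε / 2 * T := by
    rw [hB]
    split_ifs with h
    · exact h2 T T h le_rfl
    · rw [Finset.card_empty, Nat.cast_zero]
      positivity
  have hsub : {t : ℕ | t < T ∧ Odd t ∧ ¬ ((∀ x : ℕ, max x1 x2 ≤ x → x ≤ T →
          (x : ℝ) ^ (0.7 : ℝ) ≤ oddCount b ρ t x ∧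
          (x : ℝ) / (Real.log x) ^ 2 ≤ evenCount b ρ t x) ∧
        (max x1 x2 ≤ T → δ * T ≤ evenCount b ρ t T))} ⊆ ((A ∪ B : Finset ℕ) : Set ℕ) := by
    rintro t ⟨ht1, ht2, ht3⟩
    rw [Finset.coe_union]
    by_contra hcon
    rw [Set.mem_union, not_or, Finset.mem_coe, Finset.mem_coe] at hcon
    apply ht3
    refine ⟨fun x hx hxT => ?_, fun hT => ?_⟩
    · rw [odd_eq, even_eq]
      by_contra hno
      apply hcon.1
      rw [hA, Finset.mem_filter, Finset.mem_range]
      exact ⟨ht1, ht2, x, (le_max_left _ _).trans hx, hxT, hno⟩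
    · rw [even_eq]
      by_contra hno
      apply hcon.2
      rw [hB, if_pos ((le_max_right _ _).trans hT), Finset.mem_filter, Finset.mem_range]
      exact ⟨ht1, not_le.1 hno⟩
  have h3 := Set.ncard_le_ncard hsub (Finset.finite_toSet _)
  rw [Set.ncard_coe_finset] at h3
  have h4 : ((A ∪ B).card : ℝ) ≤ A.card + B.card := by exact_mod_cast Finset.card_union_le _ _
  have h5 : ((({t : ℕ | t < T ∧ Odd t ∧ ¬ ((∀ x : ℕ, max x1 x2 ≤ x → x ≤ T →
          (x : ℝ) ^ (0.7 : ℝ) ≤ oddCount b ρ t x ∧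
          (x : ℝ) / (Real.log x) ^ 2 ≤ evenCount b ρ t x) ∧
        (max x1 x2 ≤ T → δ * T ≤ evenCount b ρ t T))}.ncard : ℕ)) : ℝ) ≤ ((A ∪ B).card : ℝ) :=
    Nat.cast_le.2 h3
  linarith

end Pool.Agent.Results.MP_a3366f_nt.AlmostAllExponents
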