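import Pool.Agent.L7h67.MP.Main
import Pool.Agent.H413R3.Part.Pt

set_option autoImplicit false

/-!
# Joint parity patterns of several multipartition functions at the dilates `2 ^ a n` (MP_a3366f_nt)

Let `p_t(n)` be the number of `t`-multipartitions of `n`. The class `τ` (modulo 3) consists of the pairs
`(t, a)` with `t` odd and `t ≡ τ 2 ^ a (mod 3)`: for `τ = 0` these are the odd multiples `t` of `3` with all
`a ≥ 0`, for `τ = 1` the `t ≡ 1 (mod 6)` with `a` even and the `t ≡ 5 (mod 6)` with `a` odd, for `τ = 2` the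
other way round. So every pair `(t, a)`, `t` odd, is in one class. A joint pattern is a sum

  `w(n) = ∑_{t, a, i} c_{t,a,i} p_t(2 ^ a n + i)` modulo 2, `t ≤ T`, `a ≤ A`, `i ≤ L`,

over the pairs `(t, a)` of one class, in which not all `c_{t,a,i}` are zero.

For all `T, A, L, b, R, Q, K` there is `X` such that for all `x ≥ X`, all joint patterns `w`, every Boolean
function `Φ` of the outputs `v_1(n), …, v_R(n)` of `R` computations which read the binary digits of `n` in
one pass, from the lowest or from the highest, with a memory of `Q` states, every class `ρ` modulo `2 ^ b`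
and both values `κ`, at least `√x (log log x) ^ K / log x` of the `n ≤ x` in the class satisfy
`w(n) + Φ(v_1(n), …, v_R(n)) = κ`.

If all the `p_t`, `t` odd, have odd density `1 / 2` as in the question and the parities behave like
independent random bits, the number is about `x / 2 ^ (b + 1)`.

Examples. For distinct odd `t, t'` which are congruent modulo 3 the numbers `p_t(n)` and `p_t'(n)` have
different parities for at least `√x (log log x) ^ K / log x` of the `n ≤ x`, and the same parity for that
many; the same holds for `p_1(n)` and `p_5(2 n)`, for `p_3(n)` and `p_3(2 n)` and `p_9(4 n + 1)`, and for all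
predictors of one from the others of the kind above.

The starting files have the case of one `t` and `a = 0` (`PredictorErrors`, `PatternCounts`), and the
library theorem `Pool.Agent.N493.PE.mainJ` (one `t`, dilates `4 ^ a n`; exported for `t = 1` only, as
`MP_ebc808_nt/JointDilatePatterns`).

Method. Let `f = ∏ (1 - X ^ i)`, `D` the discriminant modulo 2 and let `ε = 3` for `τ = 0`, `ε = 1`
otherwise. For `e` large (even for `τ = 1`, odd for `τ = 2`) the set `S` of the exponents of `f ^ (2 ^ e ε)`
is sparse, `2 ^ a S` belongs to `f ^ (2 ^ (a + e) ε)`, and `f ^ (2 ^ (a + e) ε - t) = f ^ (3 μ)` with an odd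
number `μ = μ_{t,a}`, for all the pairs of the class at once. So the sum of `w` over the shifts
`n - s`, `s ∈ S`, is the sum of the `c_{t,a,i}` times the coefficients of `D ^ μ` at `8 (2 ^ a n + i) + μ`.
Different triples may lead to the same place (`t ≡ t'` modulo 24); the terms at one place add up to the
coefficient of a sum of distinct odd powers of `D`, which is not zero, and for every nonzero element of
the span of the odd powers of large exponents many coefficients are 1 in all admissible residue classes
(`many_gen`, Nicolas-Serre theory of the starting files `H307R2/OP`, `R836/PP`). The places are pairwise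
non-proportional linear forms in `n`, and on a suitable class all but one are divisible exactly once by
more primes `≡ 3 (mod 8)` than the index of nilpotency. The predictor is dealt with by the pigeonhole
principle on its states.
-/

namespace Pool.Agent.Results.MP_a3366f_nt.JointMultipartitions

open PowerSeries

/-- the number of `t`-multipartitions of `n`: the coefficient of `q ^ n` in `∏ 1 / (1 - q ^ i) ^ t` -/
def multipartitions (t n : ℕ) : ℕ :=
  ∑ x ∈ Finset.Nat.antidiagonalTuple t n, ∏ i, Fintype.card (Nat.Partition (x i))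

/-- the joint pattern `∑ c_{t,a,i} p_t(2 ^ a n + i)` modulo 2 -/
def pattern {T A L : ℕ} (c : Fin (T + 1) → Fin (A + 1) → Fin (L + 1) → ZMod 2) (n : ℕ) : ZMod 2 :=
  ∑ t : Fin (T + 1), ∑ a : Fin (A + 1), ∑ i : Fin (L + 1),
    c t a i * (multipartitions t (2 ^ (a : ℕ) * n + i) : ZMod 2)

/-- not all the coefficients are zero, and those which are not zero belong to pairs `(t, a)` with `t` odd and
`t ≡ τ 2 ^ a (mod 3)` -/
def Admissible {T A L : ℕ} (τ : ℕ) (c : Fin (T + 1) → Fin (A + 1) → Fin (L + 1) → ZMod 2) : Prop :=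
  c ≠ 0 ∧ ∀ t a i, c t a i ≠ 0 → Odd (t : ℕ) ∧ (t : ℕ) ≡ τ * 2 ^ (a : ℕ) [MOD 3]

/-- `u(n)` can be computed in one pass over the binary digits of `n` with `Q` memory states: either for
every `k` the value `u(2 ^ k n + r)` (`n ≥ 1`, `r < 2 ^ k`) depends only on `n` and on one of `Q` states
which is determined by `r` (the digits are read from the lowest one), or for every `k` it depends only
on `r` and on one of `Q` states which is determined by `n` (from the highest one) -/
def OnePass (Q : ℕ) (u : ℕ → ZMod 2) : Prop :=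
  (∀ k : ℕ, ∃ (s : ℕ → Fin Q) (h : Fin Q → ℕ → ZMod 2), ∀ n r : ℕ, 1 ≤ n → r < 2 ^ k →
    u (2 ^ k * n + r) = h (s r) n) ∨
  (∀ k : ℕ, ∃ (s : ℕ → Fin Q) (h : Fin Q → ℕ → ZMod 2), ∀ n r : ℕ, 1 ≤ n → r < 2 ^ k →
    u (2 ^ k * n + r) = h (s n) r)

open Pool.Agent.L7h67.MP in
theorem bridge {T A L : ℕ} (τ : ℕ) (c : Fin (T + 1) → Fin (A + 1) → Fin (L + 1) → ZMod 2)
    (hc : Admissible τ c) : ∃ d : Tr T A L → ZMod 2, d ≠ 0 ∧ Supp τ d ∧ ∀ n,
      wT d (fun t k => coeff k (Pool.Agent.N493.PD.Ft t)) n = pattern c n := by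
  refine ⟨fun x => c x.1 x.2.1 x.2.2, ?_, ?_, ?_⟩
  · intro h
    apply hc.1
    funext t a i
    exact congrFun h (t, a, i)
  · rintro ⟨t, a, i⟩ hx
    obtain ⟨h1, h2⟩ := hc.2 t a i hx
    exact ⟨Nat.odd_iff.1 h1, h2⟩
  · intro n
    unfold wT pattern
    rw [Fintype.sum_prod_type]
    refine Finset.sum_congr rfl fun t _ => ?_
    rw [Fintype.sum_prod_type]
    refine Finset.sum_congr rfl fun a _ => ?_
    refine Finset.sum_congr rfl fun i _ => ?_
    have h := Pool.Agent.H413R3.Part.coeff_pow_eq (t : ℕ) (2 ^ (a : ℕ) * n + (i : ℕ))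
    show c t a i * coeff (2 ^ (a : ℕ) * n + (i : ℕ)) ((PowerSeries.mk fun n =>
      (Fintype.card (Nat.Partition n) : ZMod 2)) ^ (t : ℕ)) = _
    rw [h]
    rfl

theorem result (τ b T A L R Q K : ℕ) :
    ∃ X : ℕ, ∀ x : ℕ, X ≤ x →
      ∀ c : Fin (T + 1) → Fin (A + 1) → Fin (L + 1) → ZMod 2, Admissible τ c →
      ∀ v : Fin R → ℕ → ZMod 2, (∀ z, OnePass Q (v z)) → ∀ Φ : (Fin R → ZMod 2) → ZMod 2,
      ∀ (ρ : ℕ) (κ : ZMod 2),
        √x * Real.log (Real.log x) ^ K / Real.log x ≤
          (((Finset.range (x + 1)).filter fun n => n % 2 ^ b = ρ % 2 ^ b ∧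
            pattern c n + Φ (fun z => v z n) = κ).card : ℝ) := by
  obtain ⟨X, hX⟩ := Pool.Agent.L7h67.MP.mainT τ b T A L R Q K
  refine ⟨X, fun x hx c hc v hv Φ ρ κ => ?_⟩
  obtain ⟨d, hd0, hd1, hd2⟩ := bridge τ c hc
  have h := hX d hd0 hd1 v hv Φ ρ κ x hx
  simp only [hd2] at h
  exact h

end Pool.Agent.Results.MP_a3366f_nt.JointMultipartitions
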