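import Pool.Agent.L7h67.MP.Chg
import Pool.Agent.H413R3.Part.Pt

set_option autoImplicit false

/-!
# Changes of joint parity patterns of several multipartition functions (MP_a3366f_nt)

Let `p_t(n)` be the number of `t`-multipartitions of `n`. The class `τ` (modulo 3) consists of the pairs
`(t, a)` with `t` odd and `t ≡ τ 2 ^ a (mod 3)`: for `τ = 0` these are the odd multiples `t` of `3` with all
`a ≥ 0`, for `τ = 1` the `t ≡ 1 (mod 6)` with `a` even and the `t ≡ 5 (mod 6)` with `a` odd, for `τ = 2` the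
other way round. So every pair `(t, a)`, `t` odd, is in one class. A joint pattern is a sum

  `w(n) = ∑_{t, a, i} c_{t,a,i} p_t(2 ^ a n + i)` modulo 2, `t ≤ T`, `a ≤ A`, `i ≤ L`,

over the pairs `(t, a)` of one class, in which not all `c_{t,a,i}` are zero.

For all `T, A, L, b, K` and `h ≥ 1` there is `X` such that for all `x ≥ X`, all joint patterns `w`, every
class `ρ` modulo `2 ^ b` and both values `κ` at least `√x (log log x) ^ K / log x` of the `n ≤ x` in the
class satisfy `w(n) = κ` and `w(n + 2 ^ b h) = κ + 1`.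

These are conditions on two bits (they are not of the linear form counted in `JointMultipartitions`): each of
the two directions of change is counted separately. For `w(n) = p_t(n)`, `t` odd, `b = 0`: for every `h ≥ 1`
at least that many `n ≤ x` have `p_t(n)` even and `p_t(n + h)` odd, and at least that many have `p_t(n)` odd
and `p_t(n + h)` even (starting result `MP_ebc808_nt/ParityChanges` for `t = 1`). For
`w(n) = p_t(n) + p_t'(n)`, `t ≡ t'` modulo 3: that often `p_t` and `p_t'` have the same parity at `n` and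
different parities at `n + h`, and vice versa. If the parities behave like independent random bits, the
number is about `x / 2 ^ (b + 2)`.

Method. `w(n) + w(n + 2 ^ b h)` is again a joint pattern, so by the counting theorem
(`Pool.Agent.L7h67.MP.mainT`, see `JointMultipartitions`) `w` changes between `n` and `n + 2 ^ b h` for at
least `√x (log log x) ^ (K + 1) / log x` of the `n ≤ x` in the class; the numbers of the changes in the two
directions differ by at most `h` (telescoping sum in the class).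
-/

namespace Pool.Agent.Results.MP_a3366f_nt.JointPatternChanges

open PowerSeries

/-- the number of `t`-multipartitions of `n`: the coefficient of `q ^ n` in `∏ 1 / (1 - q ^ i) ^ t` -/
def multipartitions (t n : ℕ) : ℕ :=
  ∑ x ∈ Finset.Nat.antidiagonalTuple t n, ∏ i, Fintype.card (Nat.Partition (x i))

/-- the joint pattern `∑ c_{t,a,i} p_t(2 ^ a n + i)` modulo 2 -/
def pattern {T A L : ℕ} (c : Fin (T + 1) → Fin (A + 1) → Fin (L + 1) → ZMod 2) (n : ℕ) : ZMod 2 :=
  ∑ t : Fin (T + 1), ∑ a : Fin (A + 1), ∑ i : Fin (L + 1),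
    c t a i * (multipartitions t (2 ^ (a : ℕ) * n + i) : ZMod 2)

/-- not all the coefficients are zero, and those which are not zero belong to pairs `(t, a)` with `t` odd and
`t ≡ τ 2 ^ a (mod 3)` -/
def Admissible {T A L : ℕ} (τ : ℕ) (c : Fin (T + 1) → Fin (A + 1) → Fin (L + 1) → ZMod 2) : Prop :=
  c ≠ 0 ∧ ∀ t a i, c t a i ≠ 0 → Odd (t : ℕ) ∧ (t : ℕ) ≡ τ * 2 ^ (a : ℕ) [MOD 3]

open Pool.Agent.L7h67.MP in
theorem bridge {T A L : ℕ} (τ : ℕ) (c : Fin (T + 1) → Fin (A + 1) → Fin (L + 1) → ZMod 2)
    (hc : Admissible τ c) : ∃ d : Tr T A L → ZMod 2, d ≠ 0 ∧ Supp τ d ∧ ∀ n,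
      wT d (fun t k => coeff k (Pool.Agent.N493.PD.Ft t)) n = pattern c n := by
  refine ⟨fun x => c x.1 x.2.1 x.2.2, ?_, ?_, ?_⟩
  · intro h
    apply hc.1
    funext t a i
    exact congrFun h (t, a, i)
  · rintro ⟨t, a, i⟩ hx
    obtain ⟨h1, h2⟩ := hc.2 t a i hx
    exact ⟨Nat.odd_iff.1 h1, h2⟩
  · intro n
    unfold wT pattern
    rw [Fintype.sum_prod_type]
    refine Finset.sum_congr rfl fun t _ => ?_
    rw [Fintype.sum_prod_type]
    refine Finset.sum_congr rfl fun a _ => ?_
    refine Finset.sum_congr rfl fun i _ => ?_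
    have h := Pool.Agent.H413R3.Part.coeff_pow_eq (t : ℕ) (2 ^ (a : ℕ) * n + (i : ℕ))
    show c t a i * coeff (2 ^ (a : ℕ) * n + (i : ℕ)) ((PowerSeries.mk fun n =>
      (Fintype.card (Nat.Partition n) : ZMod 2)) ^ (t : ℕ)) = _
    rw [h]
    rfl

theorem result (τ b T A L K h : ℕ) (hh : 1 ≤ h) :
    ∃ X : ℕ, ∀ x : ℕ, X ≤ x →
      ∀ c : Fin (T + 1) → Fin (A + 1) → Fin (L + 1) → ZMod 2, Admissible τ c →
      ∀ (ρ : ℕ) (κ : ZMod 2),
        √x * Real.log (Real.log x) ^ K / Real.log x ≤
          (((Finset.range (x + 1)).filter fun n => n % 2 ^ b = ρ % 2 ^ b ∧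
            pattern c n = κ ∧ pattern c (n + 2 ^ b * h) = κ + 1).card : ℝ) := by
  obtain ⟨X, hX⟩ := Pool.Agent.L7h67.MP.changesT τ b T A L K h hh
  refine ⟨X, fun x hx c hc ρ κ => ?_⟩
  obtain ⟨d, hd0, hd1, hd2⟩ := bridge τ c hc
  have h := hX d hd0 hd1 ρ κ x hx
  simp only [hd2] at h
  exact h

end Pool.Agent.Results.MP_a3366f_nt.JointPatternChanges
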