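import Pool.Agent.L7h67.OD.Exc

set_option autoImplicit false

/-!
# Odd values of the number of `t`-multipartitions for odd `t` (MP_a3366f_nt)

For every odd `t` which is not of the form `24 s - 1` with `s` a sum of distinct powers of 4
(23, 95, 119, 383, ...), and every `ε > 0`: for all large `x`, all `b` with
`2 ^ b ≤ (log x) ^ (2 - ε)` and every residue `ρ`, at least `√x (log x) ^ (1 - ε) / 2 ^ b` of the
integers `n ≤ x` with `n ≡ ρ (mod 2 ^ b)` have an odd number of `t`-multipartitions.

The result `OddValues` of the starting repository is the case `t ≡ 1 (mod 24)` and most of the case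
`t ≡ 13 (mod 24)`. There the numbers `n` come from representations `3 N = δ s ^ 2 + 4 ^ r u ^ 2`
with `δ ≡ 3 (mod 4)`, `δ s ^ 2 = 24 n - t`, and `N` is a product of primes of the class 5 modulo 8
and boundedly many of the class 3. New here:
* `t` divisible by 3: `N = δ s ^ 2 + 4 ^ r u ^ 2` and `m = 4 ^ r - t / 3`; the power `D ^ m` of the
  discriminant then needs about `2 ^ r` primes of the class 3 and `2 ^ (r - 1)` of the class 5:
  two families of small primes in `M` blocks, each with its own class and kernels;
* `t ≡ 2 (mod 3)`: `3 N = δ s ^ 2 + 2 * 4 ^ r u ^ 2`, the bulk of the primes is of the class 3;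
* `t ≡ 3 (mod 4)`: `δ ≡ 1 (mod 4)`. For `δ = 1` every prime of one of the two classes is split, so
  that the sieve by the bulk primes gives nothing; this kernel is killed by one fixed prime of the
  other class (which is allowed unless `t` is exceptional). For the other kernels a fixed small
  prime of given class modulo 8 and given Jacobi symbol is needed: given four nontrivial quadratic
  characters modulo `m` with product 1 there is a prime `p ≤ C m ^ C` at which all four are `-1`
  (`K4`; otherwise the convolution of the four characters would be nonnegative up to `C m ^ C`).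
-/

namespace Pool.Agent.Results.MP_a3366f_nt.OddValuesAllOdd

theorem result (t : ℕ) (ht : Odd t) (hA : ∀ A : Finset ℕ, t + 1 ≠ 24 * ∑ i ∈ A, 4 ^ i) :
    ∀ ε : ℝ, 0 < ε → ∃ x0 : ℝ, ∀ x : ℕ, x0 ≤ x → ∀ b ρ : ℕ,
    (2 : ℝ) ^ b ≤ Real.log x ^ (2 - ε) →
    Real.sqrt x * Real.log x ^ (1 - ε) / 2 ^ b ≤
      (((Finset.range (x + 1)).filter (fun n => n % 2 ^ b = ρ % 2 ^ b ∧
        Odd (∑ y ∈ Finset.Nat.antidiagonalTuple t n,
          ∏ i, Fintype.card (Nat.Partition (y i))))).card : ℝ) :=
  Pool.Agent.L7h67.OD.finalO t ht hA

end Pool.Agent.Results.MP_a3366f_nt.OddValuesAllOdd
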